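import Pool.Agent.H39.HW.SBas

/-!
# Project HW, scheme side: parts UPT, UPB, VD
-/

set_option autoImplicit false
open Classical Finset

namespace Pool.Agent.H43.HW.Sc

open Pool.Agent.H39.HW Pool.Agent.H39.HW.Sc

variable {x : Prm}

theorem Lpos (hx : Par x) : (0 : ℝ) < x.L := by
  have := hx.Lge
  have : 0 < x.L := by omega
  exact_mod_cast this

theorem hpos (hx : Par x) : (0 : ℝ) < x.h := by
  have := hx.hge
  have : 0 < x.h := by omega
  exact_mod_cast this

theorem h_le_L (hx : Par x) : (x.h : ℝ) ≤ x.L := by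
  have : x.h ≤ x.L := by
    rw [hx.L1]
    omega
  exact_mod_cast this

/-- the error of the shares is tiny -/
theorem kappa (hx : Par x) :
    400 * x.L * x.μ / x.θ ≤ 1 / (10 ^ 4 * x.L ^ 2 * x.h) ∧
    400 * x.L * x.μ / x.θ ≤ x.ε / 10 ^ 6 ∧ 0 ≤ 400 * x.L * x.μ / x.θ := by
  have h1 := hx.u1
  have hL := Lpos hx
  have hh := hpos hx
  have hhL := h_le_L hx
  have ht := hx.t0
  have hm := hx.m0
  have he := hx.e0
  have he1 := hx.e1
  have hL1 : (8 * 10 ^ 8 : ℝ) ≤ x.L := by exact_mod_cast hx.Lge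
  refine ⟨?_, ?_, by positivity⟩
  · rw [div_le_div_iff₀ ht (by positivity)]
    have a1 : 400 * x.L * x.μ * (10 ^ 4 * x.L ^ 2 * x.h) = 4 * 10 ^ 6 * (x.L ^ 3 * x.μ) * x.h := by
      ring
    have a2 : 4 * 10 ^ 6 * (x.L ^ 3 * x.μ) * x.h ≤ 4 * 10 ^ 6 * (x.L ^ 3 * x.μ) * x.L :=
      mul_le_mul_of_nonneg_left hhL (by positivity)
    have a3 : 4 * 10 ^ 6 * (x.L ^ 3 * x.μ) * x.L = 4 * 10 ^ 6 * (x.L ^ 4 * x.μ) := by ring
    have a4 : 0 ≤ x.L ^ 4 * x.μ := by positivity
    have a5 : x.ε * x.θ ≤ 1 * x.θ := mul_le_mul_of_nonneg_right (by linarith) ht.le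
    rw [a1]
    linarith
  · rw [div_le_div_iff₀ ht (by positivity)]
    have b1 : (x.L : ℝ) ≤ (x.L : ℝ) ^ 4 := by
      have : (1 : ℝ) ≤ x.L := by linarith
      calc (x.L : ℝ) = (x.L : ℝ) ^ 1 := (pow_one _).symm
        _ ≤ (x.L : ℝ) ^ 4 := pow_le_pow_right₀ this (by norm_num)
    have b2 : x.μ * (x.L : ℝ) ≤ x.μ * (x.L : ℝ) ^ 4 := mul_le_mul_of_nonneg_left b1 hm.le
    have b3 : 0 ≤ x.μ * (x.L : ℝ) ^ 4 := by positivity
    nlinarith

theorem rs_bd (hS : S_SHR) (hx : Par x) {P : ℕ} (hP : P < 2 * x.h) {a : ℕ} (ha : a ∈ x.R) :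
    1 - 200 * x.L * x.μ / x.θ ≤ x.rs P a ∧ x.rs P a ≤ 1 + 200 * x.L * x.μ / x.θ := by
  have := abs_le.1 (hS x hx P hP a ha)
  constructor <;> linarith [this.1, this.2]

theorem rs_pos (hS : S_SHR) (hx : Par x) {P : ℕ} (hP : P < 2 * x.h) {a : ℕ} (ha : a ∈ x.R) :
    0 < x.rs P a := by
  have h1 := (rs_bd hS hx hP ha).1
  have h2 := (kappa hx).2.1
  have h3 := hx.e1
  have h4 : 400 * x.L * x.μ / x.θ = 2 * (200 * x.L * x.μ / x.θ) := by ring
  rw [h4] at h2
  have h5 : x.ε / 10 ^ 6 ≤ 1 := by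
    rw [div_le_one (by positivity)]
    linarith
  linarith

/-- `|y / r - y| ≤ 2 κ y` -/
theorem div_bd {y r k : ℝ} (hy : 0 ≤ y) (hk : 0 ≤ k) (hk2 : k ≤ 1 / 2) (h1 : 1 - k ≤ r)
    (h2 : r ≤ 1 + k) : |y / r - y| ≤ 2 * k * y := by
  have hr : 0 < r := by linarith
  have e : y / r - y = y * ((1 - r) / r) := by
    field_simp
  rw [e, abs_mul, abs_of_nonneg hy, mul_comm]
  apply mul_le_mul_of_nonneg_right _ hy
  rw [abs_div, abs_of_pos hr, div_le_iff₀ hr, abs_le]
  constructor <;> nlinarith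

theorem wb_nonneg (hT : S_PAT) (hx : Par x) {P : ℕ} (hP : P < 2 * x.h) (β : ℕ) :
    0 ≤ x.wb P β ∧ x.wb P β ≤ 1 + 3 / x.h := by
  unfold Prm.wb
  split_ifs
  · exact (hT x hx P hP).1 _
  · have := hpos hx
    refine ⟨zero_le_one, ?_⟩
    have : 0 ≤ 3 / (x.h : ℝ) := by positivity
    linarith

theorem sum_wb (hT : S_PAT) (hx : Par x) (τ : Bool) (β : ℕ) :
    ∑ P ∈ (range (2 * x.h)).filter (fun P => x.tp P = τ), x.wb P β = x.h := by
  have hh := hx.hge
  unfold Prm.wb
  split_ifs with hβ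
  · exact (hT x hx 0 (by omega)).2.2.2.2 τ _
  · rw [Finset.sum_const, nsmul_eq_mul, mul_one]
    congr 1
    cases τ with
    | true =>
      have : (range (2 * x.h)).filter (fun P => x.tp P = true) = range x.h := by
        ext P
        simp only [mem_filter, mem_range, Prm.tp, decide_eq_true_eq]
        omega
      rw [this, card_range]
    | false =>
      have : (range (2 * x.h)).filter (fun P => x.tp P = false) = Finset.Ico x.h (2 * x.h) := by
        ext P
        simp only [mem_filter, mem_range, Prm.tp, decide_eq_false_iff_not, mem_Ico]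
        omega
      rw [this, Nat.card_Ico]
      omega

theorem t_UPT (hS : S_SHR) (hR : S_ROW) (hT : S_PAT) : S_UPT := by
  intro x hx a ha β hβ
  set k := 200 * x.L * x.μ / x.θ with hk
  have hk4 : 400 * x.L * x.μ / x.θ = 2 * k := by rw [hk]; ring
  obtain ⟨k1, k2, k3⟩ := kappa hx
  rw [hk4] at k1 k2 k3
  have hk0 : 0 ≤ k := by linarith
  have hk2 : k ≤ 1 / 2 := by
    have h3 := hx.e1
    have h5 : x.ε / 10 ^ 6 ≤ 1 := by
      rw [div_le_one (by positivity)]
      linarith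
    linarith
  -- the sum of the numerators
  have hsum : ∑ P ∈ range (2 * x.h), x.wb P β * x.u (x.tp P) a β =
      2 * x.h * x.dem a β / x.Dt a := by
    have e1 : ∑ P ∈ range (2 * x.h), x.wb P β * x.u (x.tp P) a β =
        ∑ P ∈ (range (2 * x.h)).filter (fun P => x.tp P = true), x.wb P β * x.u true a β +
        ∑ P ∈ (range (2 * x.h)).filter (fun P => x.tp P = false), x.wb P β * x.u false a β := by
      rw [← Finset.sum_filter_add_sum_filter_not (range (2 * x.h)) (fun P => x.tp P = true)]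
      congr 1
      · apply Finset.sum_congr rfl
        intro P hP
        rw [(Finset.mem_filter.1 hP).2]
      · apply Finset.sum_congr
        · apply Finset.filter_congr
          intro P _
          simp
        · intro P hP
          have : x.tp P = false := by
            have := (Finset.mem_filter.1 hP).2
            simpa using this
          rw [this]
    rw [e1, ← Finset.sum_mul, ← Finset.sum_mul, sum_wb hT hx, sum_wb hT hx, ← mul_add]
    have e2 := (hR x hx a ha true).2.2.2.2.1 β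
    rw [if_pos hβ] at e2
    rw [e2]
    ring
  rw [← hsum, ← Finset.sum_sub_distrib, Finset.mul_sum]
  refine (Finset.abs_sum_le_sum_abs _ _).trans (Finset.sum_le_sum ?_)
  intro P hP
  have hP' := Finset.mem_range.1 hP
  have hy : 0 ≤ x.wb P β * x.u (x.tp P) a β :=
    mul_nonneg (wb_nonneg hT hx hP' β).1 ((hR x hx a ha (x.tp P)).1 β)
  have hb := rs_bd hS hx hP' ha
  have h1 := div_bd hy hk0 hk2 hb.1 hb.2
  unfold Prm.uP
  exact h1.trans (mul_le_mul_of_nonneg_right k1 hy)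

theorem t_UPB (hS : S_SHR) (hR : S_ROW) (hC : S_COL) (hT : S_PAT) : S_UPB := by
  intro x hx P hP
  have hh := hpos hx
  refine ⟨?_, ?_⟩
  · intro a ha
    have hr := rs_pos hS hx hP ha
    refine ⟨?_, ?_, ?_⟩
    · intro β
      exact div_nonneg (mul_nonneg (wb_nonneg hT hx hP β).1 ((hR x hx a ha (x.tp P)).1 β)) hr.le
    · unfold Prm.uP
      rw [← Finset.sum_div]
      exact div_self hr.ne'
    · intro β hne
      have h1 : x.u (x.tp P) a β ≠ 0 := by
        intro h0
        apply hne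
        unfold Prm.uP
        rw [h0, mul_zero, zero_div]
      have h2 : x.wb P β ≠ 0 := by
        intro h0
        apply hne
        unfold Prm.uP
        rw [h0, zero_mul, zero_div]
      obtain ⟨h3, h4⟩ := (hR x hx a ha (x.tp P)).2.2.2.1 β h1
      refine ⟨h3, h4, ?_⟩
      intro hF
      unfold Prm.F at hF
      rw [Finset.mem_filter] at hF
      apply h2
      unfold Prm.wb Prm.wt
      rw [if_pos hF.1, if_pos hF.2]
  · intro β hβ
    obtain ⟨_, k2, k3⟩ := kappa hx
    set k := 200 * x.L * x.μ / x.θ with hk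
    have hk4 : 400 * x.L * x.μ / x.θ = 2 * k := by rw [hk]; ring
    rw [hk4] at k2 k3
    have hk0 : 0 ≤ k := by linarith
    have he0 := hx.e0
    have he1 := hx.e1
    have hk2 : k ≤ 1 / 2 := by
      have h5 : x.ε / 10 ^ 6 ≤ 1 := by
        rw [div_le_one (by positivity)]
        linarith
      linarith
    have h1 : ∑ a ∈ x.R, x.uP P a β ≤
        ∑ a ∈ x.R, (1 + 3 / x.h) * (1 + 2 * k) * x.u (x.tp P) a β := by
      apply Finset.sum_le_sum
      intro a ha
      have hu := (hR x hx a ha (x.tp P)).1 β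
      have hb := rs_bd hS hx hP ha
      have h2 := (abs_le.1 (div_bd hu hk0 hk2 hb.1 hb.2)).2
      have h3 : x.u (x.tp P) a β / x.rs P a ≤ (1 + 2 * k) * x.u (x.tp P) a β := by linarith
      have hw := wb_nonneg hT hx hP β
      unfold Prm.uP
      calc x.wb P β * x.u (x.tp P) a β / x.rs P a
          = x.wb P β * (x.u (x.tp P) a β / x.rs P a) := by ring
        _ ≤ (1 + 3 / x.h) * ((1 + 2 * k) * x.u (x.tp P) a β) := by
            apply mul_le_mul hw.2 h3 (div_nonneg hu (rs_pos hS hx hP ha).le)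
            positivity
        _ = _ := by ring
    rw [← Finset.mul_sum] at h1
    have h2 := hC x hx (x.tp P) β hβ
    have h3 : 3 / (x.h : ℝ) ≤ 3 / 1000 * x.ε := by
      rw [div_le_iff₀ hh]
      have := hx.h1
      linarith
    have h4 : 2 * k ≤ x.ε / 10 ^ 6 := k2
    have h5 : (1 + 3 / (x.h : ℝ)) * (1 + 2 * k) ≤ (1 + 3 / 1000 * x.ε) * (1 + x.ε / 10 ^ 6) := by
      apply mul_le_mul (by linarith) (by linarith) (by linarith) (by positivity)
    have h6 : (1 + 3 / (x.h : ℝ)) * (1 + 2 * k) * ∑ a ∈ x.R, x.u (x.tp P) a β ≤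
        ((1 + 3 / 1000 * x.ε) * (1 + x.ε / 10 ^ 6)) * (1 - x.ε / 10) := by
      have hs : 0 ≤ ∑ a ∈ x.R, x.u (x.tp P) a β :=
        Finset.sum_nonneg fun a ha => (hR x hx a ha (x.tp P)).1 β
      apply mul_le_mul h5 h2 hs (by positivity)
    have h7 : ((1 + 3 / 1000 * x.ε) * (1 + x.ε / 10 ^ 6)) * (1 - x.ε / 10) ≤ 1 - x.ε / 20 := by
      have a1 : 0 ≤ x.ε * x.ε := mul_nonneg he0.le he0.le
      nlinarith [mul_nonneg a1 he0.le, mul_le_mul_of_nonneg_left he1 he0.le]
    linarith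

theorem t_VD (hK : S_KKR) (hU : S_UPB) : S_VD := by
  intro x hx φ hφ s
  have key : ∀ y < 2 * x.h * x.t, ∀ a ∈ x.R, φ y a ∈ x.cls a ∧
      x.d0.Al x.D x.p (x.tp (y / x.t)) (φ y a) ∧ φ y a ∉ x.F (y / x.t) := by
    intro y hy a ha
    have ht := hx.t1
    have hP : y / x.t < 2 * x.h := by
      rw [Nat.div_lt_iff_lt_mul (by omega)]
      exact hy
    have h1 := hφ.2 (y / x.t) hP a ha (φ y a)
    have h2 : x.kk (y / x.t) a (φ y a) ≠ 0 := by
      rw [← h1]
      apply Finset.card_ne_zero_of_mem (a := y)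
      rw [Finset.mem_filter, Finset.mem_range]
      exact ⟨hy, rfl, rfl⟩
    have h3 : x.uP (y / x.t) a (φ y a) ≠ 0 := fun h0 =>
      h2 (((hK x hx _ hP).1 a ha).2.2.1 _ h0)
    exact ((hU x hx _ hP).1 a ha).2.2 _ h3
  refine ⟨?_, ?_, ?_, ?_⟩
  · intro y hy a ha
    exact (key y hy a ha).1
  · intro y hy a ha b hb h
    exact hφ.1 y hy a ha b hb h
  · intro y hy a ha
    exact (key y hy a ha).2.1
  · intro y hy a ha
    exact (key y hy a ha).2.2

end Pool.Agent.H43.HW.Sc
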