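import Pool.Agent.H65.HW.GBas

/-!
# Project HW: parts CNT and DEG

`rz_eq`, `rz_zero`, `rz_le`: at most one row uses a given block;
`t_DEG (h : S_TZ3) : S_DEG`, `t_CNT (h : S_TZ1) : S_CNT`.
-/

set_option autoImplicit false
open Classical Finset

namespace Pool.Agent.H43.HW

open Pool.Agent.H21.HV (nb Prp TotLab)
open Pool.Agent.H39.HW (sm Av ln blk lab Dat Sch Reg S_GRA S_SCH S_FIN)
open Pool.Agent.H65.HW

theorem D_pos {V : Type} [Fintype V] {G : SimpleGraph V} {D p : ℕ} {s : Dat} {cl : V → ℕ}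
    (h : Ctx G D p s cl) : (0 : ℝ) < D := by
  have h1 := h.big
  have h2 := h.sch.dpos
  have h3 : (0 : ℝ) < 100 * (s.m + 2) * (s.B + 2) * (s.H + 2) := by positivity
  have h4 : 0 < s.δ * D := lt_of_lt_of_le h3 h1
  by_contra hc
  have : s.δ * D ≤ 0 := mul_nonpos_of_nonneg_of_nonpos h2.le (not_lt.1 hc)
  linarith

theorem rz_eq {V : Type} [Fintype V] {G : SimpleGraph V} {D p : ℕ} {s : Dat} {cl : V → ℕ}
    (h : Ctx G D p s cl) {z : V} {b : ℕ} (hb : b ∈ s.R) (hne : cl z ≠ b) :
    rz G s cl z (sm s.B (cl z) b) = nb G (cell cl b) z := by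
  unfold rz
  have : (s.R.erase (cl z)).filter (fun b' => sm s.B (cl z) b' = sm s.B (cl z) b) = {b} := by
    ext b'
    simp only [mem_filter, mem_erase, mem_singleton]
    constructor
    · rintro ⟨⟨_, h2⟩, h3⟩
      exact sm_inj (row_lt h.sch h2) (row_lt h.sch hb) h3
    · rintro rfl
      exact ⟨⟨hne.symm, hb⟩, rfl⟩
  rw [this, Finset.sum_singleton]

theorem rz_zero {V : Type} [Fintype V] {G : SimpleGraph V} {s : Dat} {cl : V → ℕ}
    {z : V} {β : ℕ} (hβ : β ∉ s.mm (cl z)) : rz G s cl z β = 0 := by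
  unfold rz
  have : (s.R.erase (cl z)).filter (fun b' => sm s.B (cl z) b' = β) = ∅ := by
    rw [Finset.filter_eq_empty_iff]
    intro b hb he
    apply hβ
    rw [← he]
    rw [Finset.mem_erase] at hb
    exact mem_mm hb.2 hb.1.symm
  rw [this, Finset.sum_empty]

theorem rz_le {V : Type} [Fintype V] {G : SimpleGraph V} {D p : ℕ} {s : Dat} {cl : V → ℕ}
    (h : Ctx G D p s cl) {z : V} (hz : cl z ∈ s.R) (β : ℕ) :
    rz G s cl z β ≤ ln s.st β := by
  by_cases hβ : β ∈ s.mm (cl z)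
  · obtain ⟨b, hb, hne, he, hc⟩ := mm_sub_cls h.sch hz hβ
    subst he
    rw [rz_eq h hb hne]
    have := nb_row_lt h z hb (mem_cls.1 hc).1
    omega
  · rw [rz_zero hβ]
    exact Nat.zero_le _

/-- the rows other than the row of `z`, block by block -/
theorem sum_rz {V : Type} [Fintype V] {G : SimpleGraph V} {D p : ℕ} {s : Dat} {cl : V → ℕ}
    (h : Ctx G D p s cl) {z : V} (hz : cl z ∈ s.R) :
    ∑ β ∈ s.cls p (cl z), rz G s cl z β = ∑ b ∈ s.R.erase (cl z), nb G (cell cl b) z := by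
  unfold rz
  apply Finset.sum_fiberwise_of_maps_to
  intro b hb
  rw [Finset.mem_erase] at hb
  exact sm_mem_cls h.sch hz hb.2 hb.1.symm

/-- the edges of `T` at `z` go to the special cells -/
theorem nb_T {V : Type} [Fintype V] {G : SimpleGraph V} {D p : ℕ} {s : Dat} {cl x : V → ℕ}
    {f : V → V → ℕ} {T : SimpleGraph V} {c : V → V → ℕ}
    (h : Ctx G D p s cl) (hT : Tgr G D p s cl x f T c) {z : V} (hz : cl z ∈ s.R) :
    nb T univ z = ∑ y ∈ range s.m, nb T (cell cl (s.B + y)) z := by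
  rw [nb_split G T h z]
  have : ∑ a ∈ s.R, nb T (cell cl a) z = 0 := by
    apply Finset.sum_eq_zero
    intro a ha
    unfold nb
    rw [Finset.card_eq_zero, Finset.filter_eq_empty_iff]
    intro u hu hadj
    rw [mem_cell] at hu
    have h1 := row_lt h.sch ha
    have h2 := row_lt h.sch hz
    rcases hT.sup z u hadj with ⟨_, h3⟩ | ⟨h3, _⟩ <;> omega
  rw [this, zero_add]

theorem sum_Nz {V : Type} [Fintype V] {G : SimpleGraph V} {D p : ℕ} {s : Dat} {cl x : V → ℕ}
    {f : V → V → ℕ} {T : SimpleGraph V} {c : V → V → ℕ}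
    (h : Ctx G D p s cl) (hT : Tgr G D p s cl x f T c) {z : V} (hz : cl z ∈ s.R) :
    ∑ y ∈ range s.m, Nz G T s cl z y + nb T univ z =
      ∑ y ∈ range s.m, nb G (cell cl (s.B + y)) z := by
  rw [nb_T h hT hz, ← Finset.sum_add_distrib]
  apply Finset.sum_congr rfl
  intro y _
  unfold Nz
  have := nb_mono_graph hT.le (cell cl (s.B + y)) z
  omega

theorem t_DEG (hTZ : S_TZ3) : S_DEG := by
  intro V _ G D p s cl x f T c h hw hl hT z hz
  have hD := D_pos h
  refine ⟨?_, ?_, ?_⟩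
  · intro y hy
    have h1 := abs_le.1 (h.spe z y hy)
    have h2 := hT.few z hz y hy
    have h3 := nb_mono_graph hT.le (cell cl (s.B + y)) z
    have h4 : (Nz G T s cl z y : ℝ) =
        (nb G (cell cl (s.B + y)) z : ℝ) - nb T (cell cl (s.B + y)) z := by
      unfold Nz
      rw [Nat.cast_sub h3]
    have h5 : (0 : ℝ) ≤ (nb T (cell cl (s.B + y)) z : ℝ) := Nat.cast_nonneg _
    rw [h4]
    constructor
    · linarith [h1.1]
    · linarith [h1.2]
  · have h1 := sum_Nz h hT hz
    have h2 := hT.deg z hz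
    have h3 := hTZ V G D p s cl x f h hw hl z hz
    have h4 : (∑ y ∈ range s.m, (Nz G T s cl z y : ℝ)) + (nb T univ z : ℝ) =
        ∑ y ∈ range s.m, (nb G (cell cl (s.B + y)) z : ℝ) := by
      exact_mod_cast h1
    have h5 : (nb T univ z : ℝ) + 1 = ((Tz G D p s cl x f z).card : ℝ) := by exact_mod_cast h2
    have h6 : ∑ y ∈ range s.m, (s.ω * D - s.δ * D) ≤
        ∑ y ∈ range s.m, (nb G (cell cl (s.B + y)) z : ℝ) := by
      apply Finset.sum_le_sum
      intro y hy
      have := (abs_le.1 (h.spe z y (Finset.mem_range.1 hy))).1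
      linarith
    rw [Finset.sum_const, Finset.card_range, nsmul_eq_mul] at h6
    nlinarith
  · intro β hβ
    refine ⟨rz_le h hz β, ?_⟩
    have h1 : (pz G s cl z β : ℝ) = (ln s.st β : ℝ) - rz G s cl z β := by
      unfold pz
      rw [Nat.cast_sub (rz_le h hz β)]
    rw [h1]
    unfold Dat.dem
    by_cases hm : β ∈ s.mm (cl z)
    · obtain ⟨b, hb, hne, he, hc⟩ := mm_sub_cls h.sch hz hm
      rw [if_pos hm]
      subst he
      rw [rz_eq h hb hne]
      have h2 := h.row z b hb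
      have h3 : (ln s.st (sm s.B (cl z) b) : ℝ) - (nb G (cell cl b) z : ℝ) -
          ((ln s.st (sm s.B (cl z) b) : ℝ) / D - s.μ) * D =
          -((nb G (cell cl b) z : ℝ) - s.μ * D) := by
        field_simp
        ring
      rw [h3, abs_neg]
      exact h2
    · rw [if_neg hm, rz_zero hm]
      have h3 : (ln s.st β : ℝ) - ((0 : ℕ) : ℝ) - ((ln s.st β : ℝ) / D - 0) * D = 0 := by
        field_simp
        simp
      rw [h3, abs_zero]
      exact mul_nonneg h.sch.dpos.le hD.le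

theorem t_CNT (hTZ : S_TZ1) : S_CNT := by
  intro V _ G D p s cl x f T c h hw hl hT z hz
  have h1 := sum_Nz h hT hz
  have h2 := hT.deg z hz
  have h3 := hTZ V G D p s cl x f h hw hl z hz
  have h4 := nb_split G G h z
  have h5 : nb G univ z = D := h.reg z
  have h6 := sum_rz h hz
  have h7 : ∑ β ∈ s.cls p (cl z), pz G s cl z β + ∑ β ∈ s.cls p (cl z), rz G s cl z β =
      ∑ β ∈ s.cls p (cl z), ln s.st β := by
    rw [← Finset.sum_add_distrib]
    apply Finset.sum_congr rfl
    intro β _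
    unfold pz
    have := rz_le h hz β
    omega
  have h8 : nb G (cell cl (cl z)) z + ∑ b ∈ s.R.erase (cl z), nb G (cell cl b) z =
      ∑ b ∈ s.R, nb G (cell cl b) z := 
    Finset.add_sum_erase _ (fun b => nb G (cell cl b) z) hz
  omega

end Pool.Agent.H43.HW
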